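import Pool.Agent.helper62.LL.SpecK
import Mathlib.MeasureTheory.Measure.Hausdorff

/-!
# MP_07c750, project LL: block G (the energy of crossing geodesics, after Ledrappier and Lindenstrauss), rows `ll:X`

Rules as in `SpecE`, `SpecK` (import `Pool.Agent.helper62.EN.All` for `Pool.Agent.EN.A_XFL`, .. if the row says so).
-/

open scoped MatrixGroups ContDiff Topology UpperHalfPlane
open UpperHalfPlane MeasureTheory Filter Set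

namespace Pool.Agent.LL

open Pool.Agent.EN (XG MG mkX mkM fl pr)

/-- how far `h` is from the diagonal and the antidiagonal matrices -/
def th (h : SL(2, ℝ)) : ℝ := max |h.1 0 0 * h.1 1 0| |h.1 0 1 * h.1 1 1|

/-- the square of the pairs of times -/
def Sq : Set (ℝ × ℝ) := Icc 0 (1 / 4) ×ˢ Icc 0 (1 / 4)

/-- the base points of `x` and `y` have distance `< ρ` in `M` -/
def DX (Γ : Subgroup SL(2, ℝ)) (ρ : ℝ) (x y : XG Γ) : Prop :=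
  ∃ g g' : SL(2, ℝ), x = mkX Γ g ∧ y = mkX Γ g' ∧ dist (g • I) (g' • I) < ρ

/-- the pairs of points of `M` at distance `< ρ` -/
def DM (Γ : Subgroup SL(2, ℝ)) (ρ : ℝ) : Set (MG Γ × MG Γ) :=
  {q | ∃ z z' : ℍ, q.1 = mkM Γ z ∧ q.2 = mkM Γ z' ∧ dist z z' < ρ}

/-- the weight `∫ e^(-2|s|) 1_𝒢 (fl s x) ds` -/
noncomputable def wt (Γ : Subgroup SL(2, ℝ)) (𝒢 : Set (XG Γ)) (x : XG Γ) : ℝ :=
  ∫ s : ℝ, Real.exp (-(2 * |s|)) * 𝒢.indicator (fun _ => (1 : ℝ)) (fl Γ s x)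

/-- the measure `w μ` -/
noncomputable def wm (Γ : Subgroup SL(2, ℝ)) (μ : Measure (XG Γ)) (𝒢 : Set (XG Γ)) : Measure (XG Γ) :=
  μ.withDensity (fun x => ENNReal.ofReal (wt Γ 𝒢 x))

/-- **Row CRS** (medium; pure). The time during which two geodesics are `ρ`-close. `aM s • I = e^s i`; with `h = [[a, b], [c, d]]`, `z = (h * aM t) • I = (a e^t i + b)/(c e^t i + d)`, `Im z = e^t / D`, `Re z = (a c e^(2t) + b d) / D`, `D = c² e^(2t) + d²`. Let `dist (e^s i) z < ρ ≤ 1`, `0 ≤ s, t ≤ 1/4`. Then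
`|s - log Im z| < ρ` (`UpperHalfPlane.dist_log_im_le`), `(Re z)² ≤ |z - e^s i|² = 2 Im z e^s (cosh dist - 1) ≤ C ρ²` (`UpperHalfPlane.cosh_dist`; `cosh ρ - 1 ≤ ρ²` for `ρ ≤ 1`), `D = e^t / Im z ≤ e²`, so `|F(t)| ≤ C₂ ρ`, `F(t) = a c e^(2t) + b d`. For fixed `t` the set of `s` has
measure `≤ 2ρ`, so `V ≤ 2ρ |{t ∈ [0, 1/4] : |F(t)| ≤ C₂ ρ}|`, in particular `V ≤ 2ρ`. Let `A = |a c|`, `B = |b d|`, `th h = max A B`. If `A ≥ B/4`: for `t₁ < t₂` in the set `2 A (t₂ - t₁) ≤ A (e^(2 t₂) - e^(2 t₁)) = |F(t₂) - F(t₁)| ≤ 2 C₂ ρ`, so its measure is `≤ C₂ρ/A` (if `A > 0`)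
and times `th h ≤ 4 A` it is `≤ 4 C₂ ρ`. If `A < B/4`: `|F| ≥ B - A e^(1/2) ≥ B/2`, so the set is empty unless `th h = B ≤ 2 C₂ ρ`, and its measure is `≤ 1`. In all cases `V th h ≤ 8 C₂ ρ²`. -/
def CRS_stmt : Prop := ∃ C : ℝ, 0 < C ∧ ∀ (h : SL(2, ℝ)) (ρ : ℝ), 0 < ρ → ρ ≤ 1 →
  (volume : Measure (ℝ × ℝ)).real {u | u ∈ Sq ∧ dist (RS.aM u.1 • I) ((h * RS.aM u.2) • I) < ρ} ≤ C * ρ ∧
  (volume : Measure (ℝ × ℝ)).real {u | u ∈ Sq ∧ dist (RS.aM u.1 • I) ((h * RS.aM u.2) • I) < ρ} * th h ≤ C * ρ ^ 2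

/-- **Row KFN** (short-medium). (Uses EN.A_XFL.) Bounded multiplicity. Let `y = mkX g₀`; the `h` of the set are `h = g⁻¹ γ g₀`, `γ ∈ Γ` (injective in `γ`), with `dist (γ • (g₀ • I)) (g • I) = dist (h • I) I ≤ 2`. If `γ₁`, `γ₂` are two of them then `dist (γ₂⁻¹ γ₁ z) z ≤ 4`, `z = g₀ • I`. Choose `δ ∈ Γ` with `δ z ∈ K`
(`K` of `cocompact`): `δ γ₂⁻¹ γ₁ δ⁻¹` maps `δ z` to a point at distance `≤ 4` from `δ z`, so it is in the finite set of `γ` with `γ K₄ ∩ K₄ ≠ ∅`, `K₄` the closed `4`-neighbourhood of `K` (compact, `ℍ` is proper; `Metric.cthickening`, or a closed ball). `N₀` = the number of elements of this finite set. -/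
def KFN_stmt : Prop := ∀ Γ : Subgroup SL(2, ℝ), QU.SurfaceGroup Γ → ∃ N₀ : ℕ, ∀ (g : SL(2, ℝ)) (y : XG Γ),
  {h : SL(2, ℝ) | y = mkX Γ (g * h) ∧ dist (h • I) I ≤ 2}.Finite ∧ {h : SL(2, ℝ) | y = mkX Γ (g * h) ∧ dist (h • I) I ≤ 2}.ncard ≤ N₀

/-- **Row CVD** (medium; pure). Bounded matrices close to the diagonal or antidiagonal ones. For `τ ≥ τ₀` (`τ₀` small, depending on `R`, `r`) use compactness: the compact set of `h` with entries `≤ R` is covered by finitely many open sets `u {k | bx-strictly r r k}`, and `C₁ ≥ r / τ₀`. Let `τ < τ₀`. `a d - b c = 1`, so `|a d| ≥ 1/2` or `|b c| ≥ 1/2`.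
First case: `|a|, |d| ≥ 1/(2R)`, so `|c| = |a c|/|a| ≤ 2 R τ`, `|b| ≤ 2 R τ`. With `u = ± diag (e^(x/2), e^(-x/2))`, `x` in a finite grid, such that `|± e^(-x/2) a - 1| ≤ r/4`: `h'' = u⁻¹ h` has off-diagonal entries `≤ C R τ` and `h''₁₁ = (1 + h''₀₁ h''₁₀) / h''₀₀` is within `r` of `1` for `τ₀` small.
Second case: `w = [[0, -1], [1, 0]]`, `w⁻¹ h = [[c, d], [-a, -b]]` is in the first case (`|c|, |b| ≥ 1/(2R)`, `|d| = |b d|/|b| ≤ 2 R τ`, `|a| ≤ 2 R τ`); use `w u`. -/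
def CVD_stmt : Prop := ∀ R r : ℝ, 0 < R → 0 < r → r ≤ 1 → ∃ (C₁ : ℝ) (U : Finset SL(2, ℝ)), 0 < C₁ ∧ ∀ (h : SL(2, ℝ)) (τ : ℝ), 0 < τ →
  (∀ i j, |h.1 i j| ≤ R) → th h ≤ τ → ∃ u ∈ U, ∃ h'' : SL(2, ℝ), h = u * h'' ∧ bx r (C₁ * τ) h''

/-- **Row WGT** (medium). (Uses EN.A_XFL, EN.A_XTX.) `(s, x) ↦ fl s x` is continuous, `X` is second countable: the integrand is jointly measurable, `wt` is measurable (`StronglyMeasurable.integral_prod_left`/`right`), `0 ≤ wt ≤ ∫ e^(-2|s|) ds = 1`. `wt (fl t x) = ∫ e^(-2|s|) 1_𝒢 (fl (s+t) x) ds = ∫ e^(-2|s-t|) 1_𝒢 (fl s x) ds ≤ e^(2|t|) wt x`.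
Last part: `Z = {wt = 0}` is measurable and `fl t ⁻¹' Z = Z` for all `t`. `0 = ∫_Z wt dμ = ∫ e^(-2|s|) μ (Z ∩ fl s ⁻¹' 𝒢) ds = ∫ e^(-2|s|) μ (fl s ⁻¹' (Z ∩ 𝒢)) ds = μ (Z ∩ 𝒢)` (Tonelli, invariance), so `μ (𝒢 ∩ Z) = 0`; if `∫_E' wt = 0` then `μ (E' \ Z) = 0`. -/
def WGT_stmt : Prop := ∀ (Γ : Subgroup SL(2, ℝ)) (μ : Measure (XG Γ)) (𝒢 : Set (XG Γ)), QU.SurfaceGroup Γ → IsProbabilityMeasure μ → (∀ t, μ.map (fl Γ t) = μ) →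
  MeasurableSet 𝒢 → Measurable (wt Γ 𝒢) ∧ (∀ x, 0 ≤ wt Γ 𝒢 x ∧ wt Γ 𝒢 x ≤ 1) ∧ (∀ t x, wt Γ 𝒢 (fl Γ t x) ≤ Real.exp (2 * |t|) * wt Γ 𝒢 x) ∧
    ∀ E' : Set (XG Γ), MeasurableSet E' → wm Γ μ 𝒢 E' = 0 → μ (𝒢 ∩ E') = 0

/-- **Row WGB** (medium; from WGT, BXR). (Uses EN.A_XFL.) The box condition passes from `1_𝒢 μ` to `w μ`. By Tonelli `wm (Bx r τ q) = ∫ e^(-2|s|) μ (Bx r τ q ∩ fl s ⁻¹' 𝒢) ds`. By BXR (2) `Bx r τ q ⊆ fl s ⁻¹' (Bx r (e^|s| τ) (fl s q))`, so for `e^|s| τ ≤ r` the integrand is `≤ e^(-2|s|) μ (fl s ⁻¹' (𝒢 ∩ Bx r (e^|s| τ) (fl s q)))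
≤ e^(-2|s|) C (e^|s| τ)^v`, and for `e^|s| τ > r` it is `≤ e^(-2|s|) ≤ e^(-2|s|) (e^|s| τ / r)^v`. `∫ e^(-(2-v)|s|) ds = 2/(2-v)`. -/
def WGB_stmt : Prop := ∀ (Γ : Subgroup SL(2, ℝ)) (μ : Measure (XG Γ)) (𝒢 : Set (XG Γ)) (r C v : ℝ), QU.SurfaceGroup Γ → IsProbabilityMeasure μ → (∀ t, μ.map (fl Γ t) = μ) →
  MeasurableSet 𝒢 → 0 < r → r ≤ 1 → 0 < v → v < 2 → (∀ (q : XG Γ) (τ : ℝ), 0 < τ → τ ≤ r → μ.real (𝒢 ∩ Bx Γ r τ q) ≤ C * τ ^ v) →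
  ∃ C' : ℝ, ∀ (q : XG Γ) (τ : ℝ), 0 < τ → τ ≤ r → (wm Γ μ 𝒢).real (Bx Γ r τ q) ≤ C' * τ ^ v

/-- **Row ENR** (medium-long; from CRS, KFN, CVD, BXR, WGT). (Uses EN.A_XFL, EN.A_XTX.) `σ = wm Γ μ 𝒢`, `σ X ≤ 1`. Let `x = mkX g`, `H(y) = {h | y = mkX (g h), dist (h • I) I ≤ 2}` (KFN), `V(y)` the volume in the row, `V_h` the volume in CRS. If `u ∈ Sq` and `DX ρ (fl u₁ x) (fl u₂ y)` then there are representatives `γ g aM u₁` and `γ' g' aM u₂`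
at distance `< ρ`, `y = mkX g'`; with `h = g⁻¹ γ⁻¹ γ' g'`: `y = mkX (g h)`, `dist (aM u₁ • I) ((h aM u₂) • I) < ρ` and `dist (h • I) I ≤ 1/4 + ρ + 1/4 ≤ 2` (`dist (aM t • I) I = |t|`). So `V(y) ≤ Σ_(h ∈ H(y)) V_h`. The entries of the `h ∈ H(y)` are `≤ 4 = R`.
`Y_n = {y | ∃ h ∈ H(y), th h ≤ e^(-n)}` is closed (image of a compact set). CVD: `Y_n ⊆ ⋃_(u ∈ U) Bx Γ r (C₁ e^(-n)) (mkX (g u))`, so by the hypothesis `σ Y_n ≤ |U| C (C₁ e^(-n))^v` if `C₁ e^(-n) ≤ r`, and `σ Y_n ≤ 1 ≤ (C₁ e^(-n) / r)^v` otherwise: `σ Y_n ≤ C₂ e^(-nv)`.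
CRS: if `y ∉ Y_0` then all `th h > 1` and `V(y) ≤ N₀ C ρ²`; if `y ∈ Y_n \ Y_(n+1)` then all `th h > e^(-n-1)` and `V_h ≤ min (C ρ, C ρ² e^(n+1)) ≤ C ρ^(1+w) e^((n+1)w)` for `0 < w ≤ 1`. So for all `y`: `V(y) ≤ N₀ C (ρ^(1+w) + Σ_n ρ^(1+w) e^((n+1)w) 1_(Y_n)(y))` in `[0, ∞]`, and
`∫⁻ V dσ ≤ N₀ C ρ^(1+w) (1 + Σ_n e^((n+1)w) C₂ e^(-nv)) ≤ C'' ρ^(1+w)`, as `w < v`. -/
def ENR_stmt : Prop := ∀ (Γ : Subgroup SL(2, ℝ)) (μ : Measure (XG Γ)) (𝒢 : Set (XG Γ)) (r C v w : ℝ), QU.SurfaceGroup Γ → IsProbabilityMeasure μ → (∀ t, μ.map (fl Γ t) = μ) →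
  MeasurableSet 𝒢 → 0 < r → r ≤ 1 → 0 < w → w ≤ 1 → w < v → (∀ (q : XG Γ) (τ : ℝ), 0 < τ → τ ≤ r → (wm Γ μ 𝒢).real (Bx Γ r τ q) ≤ C * τ ^ v) →
  ∃ C' : ℝ, ∀ (x : XG Γ) (ρ : ℝ), 0 < ρ → ρ ≤ 1 →
    ∫⁻ y, volume {u : ℝ × ℝ | u ∈ Sq ∧ DX Γ ρ (fl Γ u.1 x) (fl Γ u.2 y)} ∂(wm Γ μ 𝒢) ≤ ENNReal.ofReal (C' * ρ ^ (1 + w))

/-- **Row EN2** (medium; from ENR, WGT). (Uses EN.A_XFL, EN.A_XTX.) The energy estimate on `M`. `(pr x, pr y) ∈ DM ρ ↔ DX ρ x y` (EN.A_XFL: `pr (mkX g) = mkM (g • I)`, equality of classes), `{(x, y) | DX ρ x y}` is open (image of an open set under the open map `mkX × mkX`). Let `σ = wm Γ μ 𝒢`. `I = (σ × σ) {DX ρ} = ∫⁻ ∫⁻ wt x wt y 1_(DX ρ) (x, y) dμ dμ`. `μ × μ` is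
invariant under `fl s × fl t`: for each `(s, t) ∈ Sq` `I = ∫⁻ ∫⁻ wt (fl s x) wt (fl t y) 1_(DX ρ) (fl s x, fl t y) ≤ e ∫⁻ ∫⁻ 1_(DX ρ) (fl s x, fl t y) dσ dσ` (WGT, `e^(2/4) e^(2/4) = e`). Integrate over `Sq` (area `1/16`), Tonelli, ENR: `I / 16 ≤ e ∫⁻ (∫⁻ V(x, y) dσ(y)) dσ(x) ≤ e C' ρ^(1+w)`. -/
def EN2_stmt : Prop := ∀ (Γ : Subgroup SL(2, ℝ)) (μ : Measure (XG Γ)) (𝒢 : Set (XG Γ)) (r C v w : ℝ), QU.SurfaceGroup Γ → IsProbabilityMeasure μ → (∀ t, μ.map (fl Γ t) = μ) →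
  MeasurableSet 𝒢 → 0 < r → r ≤ 1 → 0 < w → w ≤ 1 → w < v → (∀ (q : XG Γ) (τ : ℝ), 0 < τ → τ ≤ r → (wm Γ μ 𝒢).real (Bx Γ r τ q) ≤ C * τ ^ v) →
  ∃ C' : ℝ, ∀ ρ : ℝ, 0 < ρ → ρ ≤ 1 →
    (((wm Γ μ 𝒢).map (pr Γ)).prod ((wm Γ μ 𝒢).map (pr Γ))) (DM Γ ρ) ≤ ENNReal.ofReal (C' * ρ ^ (1 + w))

/-- **Row VBL** (short-medium; pure). The area of small discs. `SL(2, ℝ)` acts transitively by isometries which preserve `volume` on `ℍ`: it is enough to consider the ball around `I`. `volume` on `ℍ` is `dx dy / y²` (see Mathlib `UpperHalfPlane` measure, or `RS`/`QU` files: search for `volume` of subsets of `ℍ`). The ball `B(I, ρ)`, `ρ ≤ 1`, is the Euclidean disc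
with centre `i cosh ρ` and radius `sinh ρ`; on it `1/e ≤ y ≤ e`, so its area is between `e^(-2) π sinh² ρ ≥ c ρ²` and `e² π sinh² ρ ≤ C ρ²`. (Cheap form: it contains the square `|x| ≤ ρ/8, |y - 1| ≤ ρ/8` and is contained in `|x| ≤ 4ρ, |y - 1| ≤ 4 ρ, y ≥ 1/e`.) -/
def VBL_stmt : Prop := ∃ c C : ℝ, 0 < c ∧ 0 < C ∧ ∀ (z : ℍ) (ρ : ℝ), 0 < ρ → ρ ≤ 1 →
  ENNReal.ofReal (c * ρ ^ 2) ≤ volume (Metric.ball z ρ) ∧ volume (Metric.ball z ρ) ≤ ENNReal.ofReal (C * ρ ^ 2)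

/-- **Row LBM** (medium; from VBL). (Uses QU.A_DOB, `Pool.Agent.helper62.RS.All`.) The area in `M` of the image of a disc. `F` is a fundamental domain of finite area (QU.A_DOB). `{z ∈ F | ∃ γ, γ z ∈ B(w, ρ)} = ⋃_γ F ∩ γ⁻¹ B(w, ρ)` has measure `≤ Σ_γ volume (F ∩ γ⁻¹ B) = volume B` (`IsFundamentalDomain.measure_eq_tsum`). There is `ρ₀ > 0`
with `dist (γ z) z ≥ 2 ρ₀` for all `z`, `γ ≠ 1` (cocompactness, `discrete`, `free`; compare EN.A_XDS), so for `ρ < ρ₀` the sets `F ∩ γ⁻¹ B` are disjoint and equality holds; for `ρ₀ ≤ ρ ≤ 1` use the ball of radius `ρ₀ / 2`, which changes the constant. -/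
def LBM_stmt : Prop := ∀ (Γ : Subgroup SL(2, ℝ)) (F : Set ℍ), QU.SurfaceGroup Γ → QU.NiceDom Γ F → ∃ c C : ℝ, 0 < c ∧ 0 < C ∧ ∀ (w : ℍ) (ρ : ℝ), 0 < ρ → ρ ≤ 1 →
  ENNReal.ofReal (c * ρ ^ 2) ≤ volume {z | z ∈ F ∧ ∃ γ : Γ, γ • z ∈ Metric.ball w ρ} ∧
    volume {z | z ∈ F ∧ ∃ γ : Γ, γ • z ∈ Metric.ball w ρ} ≤ ENNReal.ofReal (C * ρ ^ 2)

/-- **Row ACM** (medium-long; from LBM). (Uses EN.A_XFL, EN.A_XTM, QU.A_DOM, QU.A_DOB.) Finite energy at the scale of the area implies absolute continuity. `F` a nice domain, `lam = (volume.restrict F).map mkM`, a finite measure on the compact metrizable `M`. For `ρ ≤ 1/2` let `f(z) = σ {b | (mkM z, b) ∈ DM ρ}`, `z ∈ F` (`DM ρ` is open, Tonelli).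
`∫⁻_F f² = ∫⁻ ∫⁻ volume {z ∈ F | (mkM z, b), (mkM z, b') ∈ DM ρ} dσ(b) dσ(b') ≤ C ρ² (σ × σ) (DM (2ρ)) ≤ C'' ρ⁴` (the two points are at distance `< 2ρ` in `M`; LBM, `b = mkM w`: `(mkM z, mkM w) ∈ DM ρ` iff some `γ z ∈ B(w, ρ)`).
Let `U` be open in `M`, `U_ρ = {b | ∀ w, b = mkM w → mkM '' B(w, ρ) ⊆ U}`. For `b ∈ U_ρ` all `z ∈ F` with `(mkM z, b) ∈ DM ρ` have `mkM z ∈ U`, so `c ρ² σ U_ρ ≤ ∫⁻_(F ∩ mkM⁻¹ U) f ≤ (lam U)^(1/2) (∫⁻_F f²)^(1/2)`: `σ U_ρ ≤ C₃ (lam U)^(1/2)` (the set `U_ρ` need not be measurable: use the outer measure, or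
replace it by a compact subset of `U`: every compact `K ⊆ U` is contained in `U_ρ` for small `ρ`). As `U = ⋃ U_(1/n)` increasing, `σ U ≤ C₃ (lam U)^(1/2)` for all open `U`. If `volume {z | mkM z ∈ E} = 0` then `lam E = 0`, outer regularity of `lam` gives open `U ⊇ E` with `lam U` small, so `σ E = 0`. -/
def ACM_stmt : Prop := ∀ (Γ : Subgroup SL(2, ℝ)) (σ : Measure (MG Γ)) (C : ℝ) (E : Set (MG Γ)), QU.SurfaceGroup Γ → IsFiniteMeasure σ →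
  (∀ ρ : ℝ, 0 < ρ → ρ ≤ 1 → (σ.prod σ) (DM Γ ρ) ≤ ENNReal.ofReal (C * ρ ^ (1 + (1 : ℝ)))) → MeasurableSet E → volume {z : ℍ | mkM Γ z ∈ E} = 0 → σ E = 0

/-- **Row MDP** (medium). (Uses EN.A_XFL, EN.A_XTM.) Mass distribution. `β_k(a) = σ {b | (a, b) ∈ DM 2^(-k)}` (`DM` is open), `∫⁻ β_k dσ ≤ C 2^(-k(1+u))`, so `σ {β_k > 2^(-k(1+α))} ≤ C 2^(-k(u-α))` is summable and σ-almost every `a` is in `M_m = {a | ∀ k ≥ m, β_k a ≤ 2^(-k(1+α))}` for some `m` (Borel-Cantelli). It is enough that `σ (E ∩ M_m) = 0`.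
Let `A = {z | mkM z ∈ E ∩ M_m} ⊆ {z | mkM z ∈ E}`, `μH[1+α] A = 0`. By `Measure.hausdorffMeasure_apply`: for every `η > 0` there are sets `t_n` with `A ⊆ ⋃ t_n`, `diam t_n ≤ 2^(-m-1)`, `Σ_n diam(t_n)^(1+α) ≤ η`. If `t_n` meets `A` in `z_n` and `D = diam t_n > 0` choose `k ≥ m` with `D < 2^(-k) ≤ 4 D`:
`mkM '' t_n ⊆ {b | (mkM z_n, b) ∈ DM 2^(-k)}` has (outer) measure `≤ 2^(-k(1+α)) ≤ (4D)^(1+α)`; if `D = 0` then `mkM '' t_n` is one point of measure `≤ β_k → 0`. As `mkM` is surjective, `E ∩ M_m ⊆ ⋃ mkM '' (t_n)` over the `n` with `t_n ∩ A ≠ ∅`, so `σ (E ∩ M_m) ≤ 4^(1+α) η`. -/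
def MDP_stmt : Prop := ∀ (Γ : Subgroup SL(2, ℝ)) (σ : Measure (MG Γ)) (C u α : ℝ) (E : Set (MG Γ)), QU.SurfaceGroup Γ → IsFiniteMeasure σ → 0 < α → α < u →
  (∀ ρ : ℝ, 0 < ρ → ρ ≤ 1 → (σ.prod σ) (DM Γ ρ) ≤ ENNReal.ofReal (C * ρ ^ (1 + u))) → MeasurableSet E →
  Measure.hausdorffMeasure (1 + α) {z : ℍ | mkM Γ z ∈ E} = 0 → σ E = 0

/-- the smallness of `E`: area zero for `α = 1`, `(1 + α)`-dimensional Hausdorff measure zero for `α < 1` -/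
def Small (Γ : Subgroup SL(2, ℝ)) (α : ℝ) (E : Set (MG Γ)) : Prop :=
  (α = 1 ∧ volume {z : ℍ | mkM Γ z ∈ E} = 0) ∨ (α < 1 ∧ Measure.hausdorffMeasure (1 + α) {z : ℍ | mkM Γ z ∈ E} = 0)

/-- **Row ENG** (short; from EN2, ACM, MDP, WGB, WGT). A set `𝒢` with light boxes does not charge small sets. `WGB`, then `EN2` with `w = 1` if `α = 1` (then `v > 1`) and with `w = min ((α + v)/2) ((α + 1)/2)`, so `α < w < 1`, `w < v`, if `α < 1`. ACM or MDP for `σ = (wm Γ μ 𝒢).map (pr Γ)` (finite: `wt ≤ 1`) gives `wm Γ μ 𝒢 (pr⁻¹ E) = 0`, and WGT `μ (𝒢 ∩ pr⁻¹ E) = 0`. -/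
def ENG_stmt : Prop := ∀ (Γ : Subgroup SL(2, ℝ)) (μ : Measure (XG Γ)) (𝒢 : Set (XG Γ)) (E : Set (MG Γ)) (r C v α : ℝ), QU.SurfaceGroup Γ → IsProbabilityMeasure μ → (∀ t, μ.map (fl Γ t) = μ) →
  MeasurableSet 𝒢 → MeasurableSet E → 0 < r → r ≤ 1 → 0 < α → α < v → v < 2 → Small Γ α E →
  (∀ (q : XG Γ) (τ : ℝ), 0 < τ → τ ≤ r → μ.real (𝒢 ∩ Bx Γ r τ q) ≤ C * τ ^ v) → μ (𝒢 ∩ pr Γ ⁻¹' E) = 0

/-- **Row FIN** (medium; from LOC, KAT, JL1, ENG). (Uses EN.A_XFL.) Let `m = μ.real (pr⁻¹ E)`, `h* = 1 - m (2 - α)/2`; if the claim fails then `(1 + β)/2 > h*`, so `KS > h*` and there are a measurable `P` and `δ > 0` with `inf_n Hn (n+1)/(n+1) > h* + δ` (`lt_iSup_iff`). Let `0 < ε < δ/8`, `2 ε < 2 - α`, and `J` from LOC (`T = fl 1`, `S = fl (-1)`). `a = α/2 + 3 ε`,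
`v = 2 (a - 2 ε) = α + 2 ε < 2`. For every `κ > 0` KAT and ENG give `μ ({a < J} ∩ pr⁻¹ E) ≤ κ`; so this measure is `0` and `m ≤ m' := μ.real {J ≤ a}`. By JL1 `J ≤ 1 + 3 ε` a.e. So `∫ J ≤ a m' + (1 + 3 ε)(1 - m') = 1 + 3 ε - (1 - α/2) m' ≤ 1 + 3 ε - (1 - α/2) m = h* + 3 ε`, and
`inf_n Hn (n+1)/(n+1) ≤ ∫ J + ε ≤ h* + 4 ε < h* + δ`, a contradiction. -/
def FIN_stmt : Prop := ∀ (Γ : Subgroup SL(2, ℝ)) (μ : Measure (XG Γ)) (E : Set (MG Γ)) (α β : ℝ), QU.SurfaceGroup Γ → IsProbabilityMeasure μ → (∀ t, μ.map (fl Γ t) = μ) →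
  MeasurableSet E → 0 < α → α ≤ 1 → Small Γ α E → (((1 + β) / 2 : ℝ) : EReal) ≤ EN.KS μ (fl Γ 1) → μ.real (pr Γ ⁻¹' E) ≤ (1 - β) / (2 - α)

end Pool.Agent.LL
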