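import Pool.Agent.helper62.EN.SpecA

/-!
# MP_07c750 (quantum unique ergodicity, weight 10), project LL: block E (local entropy, Mathlib only), rows `ll:X`

THEOREM (LL). Let `ν` be a weak limit of the averages of `|φ|²` over `N_k ≥ r_k^(β - o(1))` orthonormal eigenfunctions with spectral parameters in
`[r_k, r_k + 1]`, `r_k → ∞`, on a closed hyperbolic surface `M` (as in `EntropyOfAverages`). Then `ν(E) ≤ 1 - β` for every Borel set `E` of area `0`
(the absolutely continuous part of `ν` has mass `≥ β`), and `ν(E) ≤ (1 - β) / (2 - α)` if `E` has `(1 + α)`-dimensional Hausdorff measure `0`, `0 < α < 1`.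

Proof. Block E: for an invertible system and a finite partition there is an invariant function `J` with `∫ J ≥ h - ε` such that almost every two sided cylinder of
length `2n+1` has measure `≤ exp (-(2n+1)(J - ε))` for large `n` (the easy half of the Shannon-McMillan-Breiman theorem, by the method of Algoet and Cover:
compare with the conditional probabilities given the infinite past, Markov inequality, Borel-Cantelli). Block K: passage to Bowen boxes. Block G: energy estimate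
(Ledrappier-Lindenstrauss): a measure with light Bowen boxes, light enough compared with the angle at which two geodesics cross, projects to an absolutely continuous measure.

RULES. Row `ll:XXX`: file `Pool/Agent/<seat>/LL/XXX.lean`, `import` the spec of the row, `set_option autoImplicit false`, namespace `Pool.Agent.LL`,
auxiliary lemmas prefixed `XXX_`, theorem `XXX_proof : XXX_stmt` (rows listed in `from` may be used as hypotheses `(h : YYY_stmt)`).
-/

open scoped Topology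
open MeasureTheory Filter Set

namespace Pool.Agent.LL

/-- an invertible measure preserving system, `S` is the inverse of `T` -/
structure Sys {X : Type} [MeasurableSpace X] (μ : Measure X) (T S : X → X) : Prop where
  mp : MeasurePreserving T μ μ
  ms : MeasurePreserving S μ μ
  ts : ∀ x, T (S x) = x
  st : ∀ x, S (T x) = x

/-- the measure of the cylinder of length `N` which contains `x` -/
noncomputable def cyl {X : Type} [MeasurableSpace X] (μ : Measure X) (T : X → X) {p : ℕ} (P : X → Fin p) (N : ℕ) (x : X) : ℝ :=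
  μ.real {y | ∀ i : Fin N, P (T^[i] y) = P (T^[i] x)}

/-- the σ-algebra of the finite past: generated by `P (S x), ..., P (S^n x)` -/
@[reducible] def past {X : Type} (S : X → X) {p : ℕ} (P : X → Fin p) (n : ℕ) : MeasurableSpace X :=
  ⨆ j : Fin n, MeasurableSpace.comap (fun x => P (S^[(j : ℕ) + 1] x)) ⊤

/-- the σ-algebra of the infinite past -/
@[reducible] def pastI {X : Type} (S : X → X) {p : ℕ} (P : X → Fin p) : MeasurableSpace X :=
  ⨆ j : ℕ, MeasurableSpace.comap (fun x => P (S^[j + 1] x)) ⊤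

/-- the conditional probability of the cell `i` given the σ-algebra `m` -/
noncomputable def cp {X : Type} (m : MeasurableSpace X) [mX : MeasurableSpace X] (μ : Measure X) {p : ℕ} (P : X → Fin p) (i : Fin p) : X → ℝ :=
  μ[(P ⁻¹' {i}).indicator (fun _ => (1 : ℝ)) | m]

/-- the information function of `P` given `m`, cut off at `L` -/
noncomputable def gI {X : Type} (L : ℝ) (m : MeasurableSpace X) [mX : MeasurableSpace X] (μ : Measure X) {p : ℕ} (P : X → Fin p) (x : X) : ℝ :=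
  max 0 (min (-Real.log (cp m μ P (P x) x)) L)

/-- **Row BIR** (medium). Birkhoff's theorem for bounded functions. `A_n x = (1/n) Σ_(i<n) g (T^i x)`, `J x = limsup A_n x`, `J' x = liminf A_n x` (bounded in `[0, L]`, measurable: `Measurable.limsup`).
`A_(n+1) x = (g x + n A_n (T x)) / (n+1)`, so `J ∘ T = J`, `J' ∘ T = J'` everywhere. Claim `∫ J ≤ ∫ g`; applied to `L - g` it gives `∫ J' ≥ ∫ g`, and `J' ≤ J` then gives `J' = J` a.e. and `∫ J = ∫ g`; limit: `tendsto_of_liminf_eq_limsup`.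
Proof of the claim (Katznelson-Weiss). Let `ε > 0`. For each `x` let `n(x) ≥ 1` be the least `n` with `A_n x ≥ J x - ε`. Choose `K` with `μ {n(x) > K} ≤ ε / (L + 1)` (the sets decrease to `∅`). `g' = g` on `{n ≤ K}`, `g' = L` elsewhere, and
`n'(x) = n(x)` on `{n ≤ K}`, `n' = 1` elsewhere. Then `Σ_(i < n'(x)) g' (T^i x) ≥ n'(x) (J x - ε)`, and as `J` is invariant, going on from `T^(n'(x)) x`: `Σ_(i < N) g' (T^i x) ≥ N (J x - ε) - K (L + 1)` for all `N`, `x` (strong induction on `N`: if `N < K` trivial,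
else take off the first `n'(x) ≤ K` terms; take `ε ≤ 1`). Integrate (`T` preserves `μ`): `N ∫ g' ≥ N (∫ J - ε) - K (L + 1)`, divide by `N → ∞`: `∫ J ≤ ∫ g' + ε ≤ ∫ g + L μ{n > K} + ε ≤ ∫ g + 2 ε`. -/
def BIR_stmt : Prop := ∀ (X : Type) [MeasurableSpace X] (μ : Measure X) (T : X → X) (g : X → ℝ) (L : ℝ), IsProbabilityMeasure μ →
  MeasurePreserving T μ μ → Measurable g → (∀ x, 0 ≤ g x ∧ g x ≤ L) →
  ∃ J : X → ℝ, Measurable J ∧ (∀ x, J (T x) = J x) ∧ (∀ x, 0 ≤ J x ∧ J x ≤ L) ∧ ∫ x, J x ∂μ = ∫ x, g x ∂μ ∧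
    ∀ᵐ x ∂μ, Tendsto (fun n : ℕ => (∑ i ∈ Finset.range n, g (T^[i] x)) / (n : ℝ)) atTop (𝓝 (J x))

/-- **Row BTS** (short-medium; from BIR). The two sided form. `J₁`, `J₂` from BIR for `T` and for `S`; `J = (J₁ + J₂) / 2`; `J₂ (S x) = J₂ x` for all `x` gives `J₂ (T x) = J₂ (S (T x)) = J₂ x`.
`Σ_(i < 2n+1) g (T^i (S^n x)) = Σ_(j < n+1) g (S^j x) + Σ_(j < n+1) g (T^j x) - g x` (`T^i S^n = S^(n-i)` for `i ≤ n`, `= T^(i-n)` for `i ≥ n`), and `(n+1)/(2n+1) → 1/2`. -/
def BTS_stmt : Prop := ∀ (X : Type) [MeasurableSpace X] (μ : Measure X) (T S : X → X) (g : X → ℝ) (L : ℝ), IsProbabilityMeasure μ →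
  Sys μ T S → Measurable g → (∀ x, 0 ≤ g x ∧ g x ≤ L) →
  ∃ J : X → ℝ, Measurable J ∧ (∀ x, J (T x) = J x) ∧ (∀ x, 0 ≤ J x ∧ J x ≤ L) ∧ ∫ x, J x ∂μ = ∫ x, g x ∂μ ∧
    ∀ᵐ x ∂μ, Tendsto (fun n : ℕ => (∑ i ∈ Finset.range (2 * n + 1), g (T^[i] (S^[n] x))) / ((2 * n + 1 : ℕ) : ℝ)) atTop (𝓝 (J x))

/-- **Row CHN** (medium). Chain rule. For a word `w : Fin n → Fin p` let `A_w = {x | ∀ j, P (S^(j+1) x) = w j}`, atoms of `past S P n`, a finite partition. On `A_w` the function `cp (past S P n) μ P i` is a.e. (for `μ A_w > 0`) the constant `μ (A_w ∩ {P = i}) / μ A_w`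
(it is measurable for `past S P n`, so constant on `A_w`, and its integral over `A_w` is `μ (A_w ∩ {P = i})`, `setIntegral_condExp`). So `∫ Σ_i negMulLog (cp ..) = Σ_w Σ_i μ(A_w) negMulLog (μ(A_w ∩ i)/μ A_w) = Σ_w Σ_i negMulLog μ(A_w ∩ i) - Σ_w negMulLog μ(A_w)`
(`Real.negMulLog_mul`; `Σ_i μ(A_w ∩ i) = μ A_w`). By invariance (`x ↦ S^n x`, `T^i (S^n x) = S^(n-i) x`) the first sum is `Hn (n+1)` (words `(i, w_0, .., w_(n-1))` read backwards: a bijection) and the second is `Hn n` (`x ↦ S^n x`: `P (T^i (S^n x)) = P (S^(n-i) x)`, `i < n`). -/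
def CHN_stmt : Prop := ∀ (X : Type) [MeasurableSpace X] (μ : Measure X) (T S : X → X) (p : ℕ) (P : X → Fin p) (n : ℕ), IsProbabilityMeasure μ →
  Sys μ T S → Measurable P →
    EN.Hn μ T P (n + 1) = EN.Hn μ T P n + ∫ x, ∑ i, Real.negMulLog (cp (past S P n) μ P i x) ∂μ

/-- **Row LEV** (medium; from CHN). `past S P n` is a filtration with supremum `pastI S P`; Lévy's upward theorem (`MeasureTheory.tendsto_ae_condExp`, the indicator is integrable) gives `cp (past S P n) μ P i x → cp (pastI S P) μ P i x` a.e.; `negMulLog` is continuous and bounded on `[0, 1]`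
(`cp ∈ [0, 1]` a.e.: `condExp_mono`), so `a_n = ∫ Σ_i negMulLog (cp (past S P n) ..) → a`, the right side. By CHN and `Hn 0 = 0`: `Hn (n+1) / (n+1)` is the average of `a_0, .., a_n`, which tends to `a` (`Filter.Tendsto.cesaro`). The infimum is `≤` the limit. -/
def LEV_stmt : Prop := ∀ (X : Type) [MeasurableSpace X] (μ : Measure X) (T S : X → X) (p : ℕ) (P : X → Fin p), IsProbabilityMeasure μ →
  Sys μ T S → Measurable P →
    (⨅ n : ℕ, ((EN.Hn μ T P (n + 1) / (n + 1) : ℝ) : EReal)) ≤ ((∫ x, ∑ i, Real.negMulLog (cp (pastI S P) μ P i x) ∂μ : ℝ) : EReal)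

/-- **Row INF** (short-medium). `cp m μ P i ∈ [0, 1]` a.e.; `μ ({P = i} ∩ {cp_i ≤ 0}) = ∫_{cp_i ≤ 0} cp_i ≤ 0` (`setIntegral_condExp`; the set `{cp_i ≤ 0}` is `m`-measurable), so `cp m μ P (P x) x > 0` a.e. Let `γ_L t = max 0 (min (-log t) L)`, bounded and measurable. `∫ gI L = Σ_i ∫ 1_(P = i) γ_L (cp_i)
= Σ_i ∫ cp_i γ_L (cp_i)` (pull out: `condExp_mul_of_stronglyMeasurable_right`/`left` and `integral_condExp`), and `cp_i γ_L (cp_i) → negMulLog cp_i` as `L → ∞`, dominated by `negMulLog cp_i ≤ 1` (for `0 ≤ t ≤ 1`: `0 ≤ t γ_L t ≤ negMulLog t`): dominated convergence. -/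
def INF_stmt : Prop := ∀ (X : Type) (m : MeasurableSpace X) [mX : MeasurableSpace X] (μ : Measure X) (p : ℕ) (P : X → Fin p), IsProbabilityMeasure μ →
  m ≤ mX → Measurable P →
    (∀ᵐ x ∂μ, 0 < cp m μ P (P x) x ∧ cp m μ P (P x) x ≤ 1) ∧ (∀ L, Measurable (gI L m μ P)) ∧
    ∀ ε : ℝ, 0 < ε → ∃ L : ℝ, 0 < L ∧ ∫ x, ∑ i, Real.negMulLog (cp m μ P i x) ∂μ - ε ≤ ∫ x, gI L m μ P x ∂μ

/-- **Row SUB** (medium; from INF). Comparison with the conditional measure. `F = pastI S P`, `F_k = F.comap (T^[k])` (generated by `P ∘ T^j`, `j < k`, all integers `j`); `F_k ≤ F_(k+1)`, `P ∘ T^k` is `F_(k+1)`-measurable, `cp F μ P i ∘ T^k` is `F_k`-measurable, and it is the conditional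
probability of `{P ∘ T^k = i}` given `F_k` (`T^k` preserves `μ`: for `A = T^(-k) B`, `B ∈ F`, `∫_A cp_i ∘ T^k = ∫_B cp_i = μ (B ∩ {P = i}) = μ (A ∩ {P ∘ T^k = i})`). LEMMA: if `g : X → ENNReal` is `F_k`-measurable then
`∫⁻ g 1_(P ∘ T^k = i) = ∫⁻ g ofReal (cp_i ∘ T^k)` (`Measurable.ennreal_induction` for the σ-algebra `F_k`, or compare the two measures `μ.withDensity` trimmed to `F_k`). For a word `w : Fin N → Fin p` let `R_N = Π_(k<N) 1[P (T^k x) = w_k] (ofReal (cp_(w_k) (T^k x)))⁻¹`: by the lemma with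
`g = R_N (ofReal cp_(w_N) ∘ T^N)⁻¹`, which is `F_N`-measurable, and `a⁻¹ * a ≤ 1`: `∫⁻ R_(N+1) ≤ ∫⁻ R_N ≤ .. ≤ 1`. The integral of the row is `Σ_w ofReal (μ.real (cylinder w)) ∫⁻ R_N(w) ≤ Σ_w μ (cylinder w) = 1`. -/
def SUB_stmt : Prop := ∀ (X : Type) [MeasurableSpace X] (μ : Measure X) (T S : X → X) (p : ℕ) (P : X → Fin p) (N : ℕ), IsProbabilityMeasure μ →
  Sys μ T S → Measurable P →
    ∫⁻ x, ENNReal.ofReal (cyl μ T P N x) *
      ∏ i ∈ Finset.range N, (ENNReal.ofReal (cp (pastI S P) μ P (P (T^[i] x)) (T^[i] x)))⁻¹ ∂μ ≤ 1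

/-- **Row BCT** (short-medium; from SUB, INF). `N = 2n+1`. `S^n` preserves `μ`, so SUB holds with `S^n x` in place of `x`; Markov (`mul_meas_ge_le_lintegral`; the integrand is a.e. measurable: a finite sum over words): outside a set of measure `≤ e^(-ε N)` one has
`cyl (S^n x) ≤ e^(ε N) Π_i cp (P (T^i S^n x)) (T^i S^n x)`; the measures are summable, so (Borel-Cantelli, `measure_setOf_frequently_eq_zero`) a.e. `x` is outside for all large `n`. A.e. `x` has `0 < cp (P y) y ≤ 1` at all `y = T^i S^n x` (countably many measure preserving maps), and there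
`cp (P y) y ≤ exp (-gI L y)` (`gI L y ≤ -log (cp (P y) y)`, as `-log ≥ 0`). -/
def BCT_stmt : Prop := ∀ (X : Type) [MeasurableSpace X] (μ : Measure X) (T S : X → X) (p : ℕ) (P : X → Fin p) (ε L : ℝ), IsProbabilityMeasure μ →
  Sys μ T S → Measurable P → 0 < ε → 0 < L →
    ∀ᵐ x ∂μ, ∀ᶠ n : ℕ in atTop, cyl μ T P (2 * n + 1) (S^[n] x) ≤
      Real.exp (ε * ((2 * n + 1 : ℕ) : ℝ) - ∑ i ∈ Finset.range (2 * n + 1), gI L (pastI S P) μ P (T^[i] (S^[n] x)))

/-- **Row LOC** (short-medium; from BTS, LEV, INF, BCT). Local entropy. `L` from INF for `ε/2`... take `g = gI L (pastI S P) μ P` (`0 ≤ g ≤ L`, measurable; `pastI S P ≤` the σ-algebra of `X` as `S`, `P` are measurable), `J` from BTS: `∫ J = ∫ g ≥ ∫ Σ negMulLog - ε`, and LEV.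
Almost everywhere, for large `n`: `Σ_(i<2n+1) g (T^i S^n x) ≥ (2n+1)(J x - ε/2)`, and BCT with `ε/2`. -/
def LOC_stmt : Prop := ∀ (X : Type) [MeasurableSpace X] (μ : Measure X) (T S : X → X) (p : ℕ) (P : X → Fin p) (ε : ℝ), IsProbabilityMeasure μ →
  Sys μ T S → Measurable P → 0 < ε →
  ∃ (J : X → ℝ) (L : ℝ), Measurable J ∧ (∀ x, J (T x) = J x) ∧ (∀ x, 0 ≤ J x ∧ J x ≤ L) ∧
    (⨅ n : ℕ, ((EN.Hn μ T P (n + 1) / (n + 1) : ℝ) : EReal)) ≤ ((∫ x, J x ∂μ + ε : ℝ) : EReal) ∧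
    ∀ᵐ x ∂μ, ∀ᶠ n : ℕ in atTop, cyl μ T P (2 * n + 1) (S^[n] x) ≤ Real.exp (-(((2 * n + 1 : ℕ) : ℝ) * (J x - ε)))

end Pool.Agent.LL
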