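import Pool.Agent.helper62.EN.SpecX
import Pool.Agent.helper62.LL.SpecE

/-!
# MP_07c750, project LL: block K (Bowen boxes on `X = Γ \ SL(2, ℝ)`), rows `ll:X`

Rules as in `SpecE`. The rows `EN.XFL_stmt`, `EN.XTX_stmt`, `EN.XTM_stmt`, `EN.XDS_stmt`, `EN.XNB_stmt` are proved: `import Pool.Agent.helper62.EN.All`, use
`Pool.Agent.EN.A_XFL`, `Pool.Agent.EN.A_XTX`, .. (and `RS.A_GLC`, `QU.A_DOB`, .. from `Pool.Agent.helper62.RS.All`).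
Notation: `EN.fl Γ t (mkX g) = mkX (g * aM t)`, `aM t = diag (e^(t/2), e^(-t/2))`, and `(aM t)⁻¹ * h * aM t` has the entries `h00, e^(-t) h01, e^t h10, h11`.
-/

open scoped MatrixGroups ContDiff Topology UpperHalfPlane
open UpperHalfPlane MeasureTheory Filter Set

namespace Pool.Agent.LL

open Pool.Agent.EN (XG MG mkX mkM fl pr)

/-- `h` is near the identity, its off-diagonal entries are at most `τ` -/
def bx (r τ : ℝ) (h : SL(2, ℝ)) : Prop :=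
  |h.1 0 0 - 1| ≤ r ∧ |h.1 1 1 - 1| ≤ r ∧ |h.1 0 1| ≤ τ ∧ |h.1 1 0| ≤ τ

/-- the box around `q`; for `τ = r e^(-n)` its points stay near the orbit of `q` for the times in `[-n, n]` -/
def Bx (Γ : Subgroup SL(2, ℝ)) (r τ : ℝ) (q : XG Γ) : Set (XG Γ) :=
  {y | ∃ g h : SL(2, ℝ), bx r τ h ∧ q = mkX Γ g ∧ y = mkX Γ (g * h)}

/-- **Row BXR** (short-medium). (Uses EN.A_XFL, EN.A_XTX.) `q = mkX g = mkX g'` means `g' = γ g`, so `y' = mkX (g' h') = mkX (g h')`: in a box one may fix the representative `g`. (1): `y' = mkX (g h (h⁻¹ h'))`, `h⁻¹ = [[d, -b], [-c, a]]`; for `r ≤ 1` the entries of `h⁻¹ h' - 1` on the diagonal are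
`≤ 2 r + r² + τ² ≤ 4 r` and those off the diagonal `≤ 2 (1 + r) τ ≤ 4 τ`. (2): `fl t (mkX (g h)) = mkX ((g a_t) (a_t⁻¹ h a_t))`. (3): `Bx Γ r τ (mkX g)` is the image of the compact set `{h | bx r τ h}` (closed and bounded in the matrices) under the continuous map `h ↦ mkX (g h)` into the Hausdorff space `X`. -/
def BXR_stmt : Prop := ∀ (Γ : Subgroup SL(2, ℝ)) (r τ : ℝ) (q : XG Γ), QU.SurfaceGroup Γ → 0 ≤ τ → τ ≤ r → r ≤ 1 →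
  (∀ y y', y ∈ Bx Γ r τ q → y' ∈ Bx Γ r τ q → y' ∈ Bx Γ (4 * r) (4 * τ) y) ∧
  (∀ (t : ℝ) (y : XG Γ), y ∈ Bx Γ r τ q → fl Γ t y ∈ Bx Γ r (Real.exp |t| * τ) (fl Γ t q)) ∧
  IsClosed (Bx Γ r τ q)

/-- **Row COR** (medium). (Uses EN.A_XFL, EN.A_XTX.) Compact cores of the cells. `X` is compact and metrizable, so there are closed `C i ⊆ P ⁻¹' {i}` with `μ (P ⁻¹' {i} \ C i) ≤ ε / (p + 1)` (`MeasurableSet.exists_isClosed_diff_lt` or `exists_isCompact_diff_lt`); the complement of `⋃ C i` is the union of these differences.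
If for some `i ≠ j` no `r` works: for each `m` there are `g_m`, `h_m` with `bx (1/(m+1)) (1/(m+1)) h_m`, `mkX g_m ∈ C i`, `mkX (g_m h_m) ∈ C j`; replacing `g_m` by `γ_m g_m` all `g_m` are in a compact set (the set of `g` with `g • I ∈ K`, `K` of `cocompact`, see `RS.A_GLC`);
a subsequence `g_m → g`, `h_m → 1`, so `mkX g ∈ C i ∩ C j = ∅` (closed sets, `mkX` continuous). Take the minimum of the finitely many `r` (for pairs `i ≠ j`), and `r ≤ 1`. -/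
def COR_stmt : Prop := ∀ (Γ : Subgroup SL(2, ℝ)) (μ : Measure (XG Γ)) (p : ℕ) (P : XG Γ → Fin p) (ε : ℝ), QU.SurfaceGroup Γ → IsProbabilityMeasure μ →
  Measurable P → 0 < ε →
  ∃ (C : Fin p → Set (XG Γ)) (r : ℝ), 0 < r ∧ r ≤ 1 ∧ (∀ i, IsClosed (C i)) ∧ (∀ i, C i ⊆ P ⁻¹' {i}) ∧ μ (⋃ i, C i)ᶜ ≤ ENNReal.ofReal ε ∧
    ∀ (i j : Fin p) (x y : XG Γ), x ∈ C i → y ∈ C j → y ∈ Bx Γ r r x → i = j

/-- **Row HAM** (short; pure). Words near a word: `Σ_(w') t^(#{i | w' i ≠ w i}) = Π_i (Σ_(j : Fin p) if j = w i then 1 else t) ≤ (1 + p t)^N` (`Finset.prod_univ_sum`, `Fintype.piFinset`), and each `w'` with at most `m` errors contributes `≥ t^m`. -/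
def HAM_stmt : Prop := ∀ (p N m : ℕ) (w : Fin N → Fin p) (t : ℝ), 0 < t → t ≤ 1 →
  (({w' : Fin N → Fin p | (Finset.univ.filter (fun i => w' i ≠ w i)).card ≤ m}.ncard : ℕ) : ℝ) * t ^ m ≤ (1 + p * t) ^ N

/-- **Row KAT** (medium-long; from BTS, BXR, COR, HAM). From cylinders to boxes (a trick of Katok). `T = fl 1`, `S = fl (-1)` (`Sys`, from the flow property in EN.A_XFL and the invariance). Choose `t ∈ (0, 1]` with `p t ≤ ε/2`, then `k ∈ (0, 1)` with `2 k log (1/t) ≤ ε/2`; `C`, `rc` from COR for `k κ / 2`;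
BTS for `g = ` the indicator function of `(⋃ C i)ᶜ`: `J_B`, `∫ J_B ≤ k κ / 2`, so `μ {J_B ≥ k} ≤ κ/2`, and almost every `x` with `J_B x < k` has `V_n x := #{i < 2n+1 | T^i S^n x ∉ ⋃ C} ≤ k (2n+1)` for large `n`. Let `𝒢_m` = the set of `x` with `a < J x` and, for all `n ≥ m`,
`cyl (2n+1) (S^n x) ≤ exp (-(2n+1)(J x - ε))` and `V_n x ≤ k (2n+1)`. Measurable, increasing in `m`, `μ ({a < J} \ ⋃ 𝒢_m) ≤ κ/2`, so some `𝒢 = 𝒢_m` has `μ ({a < J} \ 𝒢) ≤ κ`. Let `r = rc/4`, `N = 2n+1`, `n ≥ m`, `q ∈ X`, `y₀, y ∈ 𝒢 ∩ Bx r (r e^(-n)) q`. By BXR `y ∈ Bx (4r) (4 r e^(-n)) y₀` and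
`T^i S^n y ∈ Bx rc rc (T^i S^n y₀)` for `0 ≤ i ≤ 2n` (`|i - n| ≤ n`). So `P (T^i S^n y) = P (T^i S^n y₀)` unless one of the two points is outside `⋃ C`: the words `w(y) = (P (T^i S^n y))_(i < N)` differ from `w(y₀)` in at most `2 k N` places, by HAM (`m = ⌊2 k N⌋`) there are at most
`(1 + p t)^N t^(-2kN) ≤ exp (ε N)` such words. The set of `z` with `w(z) = w(y)` has measure `cyl N (S^n y) ≤ exp (-N (a - ε))` (`S^n` preserves `μ`). So `μ (𝒢 ∩ Bx) ≤ exp (ε N - N (a - ε)) = exp (-N (a - 2 ε)) ≤ exp (-2 n (a - 2 ε))`. For `n < m` the measure is `≤ 1 ≤ exp (2 m (a - 2ε)) exp (-2n (a - 2ε))`.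
For real `τ ∈ (0, r]` let `n = ⌊log (r/τ)⌋₊`: `τ ≤ r e^(-n)`, `e^(-n) ≤ e τ / r`, so the measure is `≤ C (e/r)^(2(a-2ε)) τ^(2(a-2ε))`. -/
def KAT_stmt : Prop := ∀ (Γ : Subgroup SL(2, ℝ)) (μ : Measure (XG Γ)) (p : ℕ) (P : XG Γ → Fin p) (J : XG Γ → ℝ) (ε a κ : ℝ), QU.SurfaceGroup Γ →
  IsProbabilityMeasure μ → (∀ t, μ.map (fl Γ t) = μ) → Measurable P → Measurable J → 0 < ε → 0 < κ → 2 * ε ≤ a →
  (∀ᵐ x ∂μ, ∀ᶠ n : ℕ in atTop, cyl μ (fl Γ 1) P (2 * n + 1) ((fl Γ (-1))^[n] x) ≤ Real.exp (-(((2 * n + 1 : ℕ) : ℝ) * (J x - ε)))) →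
  ∃ (𝒢 : Set (XG Γ)) (r C : ℝ), MeasurableSet 𝒢 ∧ 𝒢 ⊆ {x | a < J x} ∧ μ ({x | a < J x} \ 𝒢) ≤ ENNReal.ofReal κ ∧ 0 < r ∧ r ≤ 1 ∧
    ∀ (q : XG Γ) (τ : ℝ), 0 < τ → τ ≤ r → μ.real (𝒢 ∩ Bx Γ r τ q) ≤ C * τ ^ (2 * (a - 2 * ε))

/-- **Row CVB** (medium). (Uses EN.A_XFL, EN.A_XTX, EN.A_XNB.) `X` is covered by `O(e^(2n))` boxes. Let `δ = r/16`; by EN.A_XNB and compactness `X = ⋃_l Ux Γ δ (mkX g_l)`, finitely many `l`. `η = r e^(-n) / 4`. For `|h_ij - 1_ij| < δ`, `h = [[a, b], [c, d]]`: `h = L(u) N(v) diag(a, 1/a)`, `L(u) = [[1,0],[u,1]]`, `N(v) = [[1,v],[0,1]]`,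
`u = c/a`, `v = a b`, `|u|, |v| ≤ 2δ ≤ 1`. Choose grid points `u', v' ∈ η ℤ ∩ [-1, 1]` with `|u - u'| ≤ η`, `|v - v'| ≤ η`; with `e = u - u'`, `h'' = (L(u') N(v'))⁻¹ h = N(-v') L(e) N(v) diag(a, 1/a)` has the entries `a (1 - v' e)`, `(v - v' - v' e v)/a`, `e a`, `(1 + e v)/a`: it satisfies
`bx r (r e^(-n))`. So `mkX (g_l h) ∈ Bx Γ r (r e^(-n)) (mkX (g_l L(u') N(v')))`. There are at most `(number of l) (2/η + 3)² ≤ C e^(2n)` such centres. -/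
def CVB_stmt : Prop := ∀ (Γ : Subgroup SL(2, ℝ)) (r : ℝ), QU.SurfaceGroup Γ → 0 < r → r ≤ 1 →
  ∃ C : ℝ, 0 < C ∧ ∀ n : ℕ, ∃ A : Finset (XG Γ), (A.card : ℝ) ≤ C * Real.exp (2 * n) ∧ ∀ y : XG Γ, ∃ q ∈ A, y ∈ Bx Γ r (r * Real.exp (-n)) q

/-- **Row JL1** (short-medium; from KAT, CVB). The local entropy is at most `1 + 2 ε` (the topological entropy of the flow is `1`). For every `κ > 0`: `𝒢`, `r`, `C` from KAT, `A_n` from CVB: `μ 𝒢 ≤ Σ_(q ∈ A_n) μ (𝒢 ∩ Bx r (r e^(-n)) q) ≤ C' e^(2n) C (r e^(-n))^(2(a-2ε)) → 0` as `2 (a - 2ε) > 2`. So `μ {a < J} ≤ κ`. -/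
def JL1_stmt : Prop := ∀ (Γ : Subgroup SL(2, ℝ)) (μ : Measure (XG Γ)) (p : ℕ) (P : XG Γ → Fin p) (J : XG Γ → ℝ) (ε a : ℝ), QU.SurfaceGroup Γ →
  IsProbabilityMeasure μ → (∀ t, μ.map (fl Γ t) = μ) → Measurable P → Measurable J → 0 < ε → 1 + 2 * ε < a →
  (∀ᵐ x ∂μ, ∀ᶠ n : ℕ in atTop, cyl μ (fl Γ 1) P (2 * n + 1) ((fl Γ (-1))^[n] x) ≤ Real.exp (-(((2 * n + 1 : ℕ) : ℝ) * (J x - ε)))) →
  μ {x | a < J x} = 0

end Pool.Agent.LL
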